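import Pool.Agent.K7.H87.FJ4.PP
import Pool.Agent.K7.H87.FJ2.Rg

/-!
# Partial isomorphisms of abelian groups extend to automorphisms of a larger abelian group
-/

set_option autoImplicit false

namespace Pool.Agent.K7.H29.GA

open Pool.Agent.Y110.FJ Pool.Agent.R684.FP
open Pool.Agent.R941.FJ (C_equiv C_le C_cyc)

/-- `ℚ/ℤ` -/
abbrev QZ : Type := AddCircle (1 : ℚ)

/-- powers of `ℚ/ℤ` are injective -/
theorem exists_ext {D Y : Type} [AddCommGroup D] (Γ : AddSubgroup (D × (Y → QZ)))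
    (h : ∀ p ∈ Γ, p.1 = 0 → p.2 = 0) : ∃ f : D →+ (Y → QZ), ∀ p ∈ Γ, f p.1 = p.2 := by
  let i : Γ →ₗ[ℤ] D := ((AddMonoidHom.fst D (Y → QZ)).comp Γ.subtype).toIntLinearMap
  have hi : Function.Injective i := by
    rw [injective_iff_map_eq_zero]
    intro p hp
    apply Subtype.ext
    have h1 : p.1.1 = 0 := hp
    exact Prod.ext h1 (h p.1 p.2 h1)
  have h1 : ∀ y : Y, ∃ c : D →+ QZ, ∀ p : Γ, c p.1.1 = p.1.2 y := by
    intro y
    obtain ⟨c, hc⟩ := CharacterModule.dual_surjective_of_injective i hi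
      ((Pi.evalAddMonoidHom (fun _ : Y => QZ) y).comp
        ((AddMonoidHom.snd D (Y → QZ)).comp Γ.subtype))
    refine ⟨c, fun p => ?_⟩
    have := DFunLike.congr_fun hc p
    exact this
  choose c hc using h1
  refine ⟨AddMonoidHom.pi c, fun p hp => ?_⟩
  funext y
  exact hc y ⟨p, hp⟩

/-- a partial isomorphism of `(ℚ/ℤ)^Y` extends to an automorphism of the double -/
theorem exists_aut {Y : Type} (Γ : AddSubgroup ((Y → QZ) × (Y → QZ)))
    (h1 : ∀ p ∈ Γ, p.1 = 0 → p.2 = 0) (h2 : ∀ p ∈ Γ, p.2 = 0 → p.1 = 0) :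
    ∃ α : MulAut (Multiplicative ((Y → QZ) × (Y → QZ))), ∀ p ∈ Γ,
      α (Multiplicative.ofAdd (p.1, 0)) = Multiplicative.ofAdd (p.2, 0) := by
  obtain ⟨f, hf⟩ := exists_ext Γ h1
  obtain ⟨g, hg⟩ := exists_ext (Γ.map (AddMonoidHom.prod (AddMonoidHom.snd _ _)
    (AddMonoidHom.fst _ _))) (by
      rintro _ ⟨p, hp, rfl⟩ h
      exact h2 p hp h)
  have hg' : ∀ p ∈ Γ, g p.2 = p.1 := fun p hp =>
    hg (p.2, p.1) ⟨p, hp, rfl⟩
  let α : ((Y → QZ) × (Y → QZ)) ≃+ ((Y → QZ) × (Y → QZ)) :=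
    { toFun := fun p => (p.2 + f p.1, p.1 - g (p.2 + f p.1))
      invFun := fun p => (p.2 + g p.1, p.1 - f (p.2 + g p.1))
      left_inv := by
        rintro ⟨x, y⟩
        simp
      right_inv := by
        rintro ⟨x, y⟩
        simp
      map_add' := by
        rintro ⟨x, y⟩ ⟨x', y'⟩
        simp only [Prod.mk_add_mk, map_add, Prod.mk.injEq]
        constructor <;> abel }
  refine ⟨AddEquiv.toMultiplicative α, fun p hp => ?_⟩
  show Multiplicative.ofAdd (α (p.1, 0)) = _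
  congr 1
  show ((0 : Y → QZ) + f p.1, p.1 - g (0 + f p.1)) = (p.2, 0)
  rw [zero_add, hf p hp, hg' p hp, sub_self]

/-- abelian-by-free groups -/
theorem ab_by_free {C : ∀ (G : Type) [Group G], Prop} (hC : ClosedE C) (hFb : FbC C)
    (hS : ∀ (S : Type) [Group S], Group.IsSolvable S → C S) {N E : Type} [CommGroup N]
    (φ : FreeGroup E →* MulAut N) : C (N ⋊[φ] FreeGroup E) := by
  have hF : C (FreeGroup E) := hC.base.of_injective _ _ (SemidirectProduct.inl) 
    SemidirectProduct.inl_injective (hFb E 1)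
  refine Pool.Agent.K7.H87.FJ2.ext_solv hC hS (SemidirectProduct.rightHom (φ := φ)).ker ?_ ?_
  · refine Group.isSolvable_of_comm fun a b => ?_
    apply Subtype.ext
    have ha : a.1.right = 1 := a.2
    have hb : b.1.right = 1 := b.2
    apply SemidirectProduct.ext
    · show a.1.left * φ a.1.right b.1.left = b.1.left * φ b.1.right a.1.left
      rw [ha, hb, map_one, MulAut.one_apply, MulAut.one_apply, mul_comm]
    · show a.1.right * b.1.right = b.1.right * a.1.right
      rw [ha, hb]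
  · exact hC.base.of_injective _ _ (QuotientGroup.kerLift _) (QuotientGroup.kerLift_injective _) hF

/-- free products -/
theorem C_coprodI {C : ∀ (G : Type) [Group G], Prop} (hC : ClosedE C) (hFb : FbC C) {V : Type}
    (G : V → Type) [∀ v, Group (G v)] (hG : ∀ v, C (G v)) : C (Monoid.CoprodI G) := by
  have h := Pool.Agent.K7.H87.FJ4.PP.closed (Λ := (⊥ : SimpleGraph V)) (G := G) (H := fun _ => ⊥)
    hC hFb hG
  refine hC.base.of_injective _ _ (Monoid.CoprodI.lift fun v =>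
    Pool.Agent.K7.H87.FJ4.PP.of (⊥ : SimpleGraph V) G (fun _ => ⊥) v) ?_ h
  have h1 : ∀ (u v : V) (a : G u) (b : G v), u ≠ v →
      ((⊥ : SimpleGraph V).Adj u v ∨ a ∈ (⊥ : Subgroup (G u)) ∨ b ∈ (⊥ : Subgroup (G v))) →
      Commute (Monoid.CoprodI.of a : Monoid.CoprodI G) (Monoid.CoprodI.of b) := by
    rintro u v a b _ (h | h | h)
    · exact h.elim
    · rw [Subgroup.mem_bot.1 h, map_one]; exact Commute.one_left _
    · rw [Subgroup.mem_bot.1 h, map_one]; exact Commute.one_right _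
  have h2 : (Pool.Agent.K7.H87.FJ4.PP.lift (Λ := (⊥ : SimpleGraph V)) (H := fun _ => ⊥)
      (fun v => (Monoid.CoprodI.of : G v →* Monoid.CoprodI G)) h1).comp
      (Monoid.CoprodI.lift fun v =>
        Pool.Agent.K7.H87.FJ4.PP.of (⊥ : SimpleGraph V) G (fun _ => ⊥) v) = MonoidHom.id _ := by
    apply Monoid.CoprodI.ext_hom
    intro v
    ext a
    simp
  intro x y hxy
  have h3 := DFunLike.congr_fun h2 x
  have h4 := DFunLike.congr_fun h2 y
  rw [MonoidHom.comp_apply, hxy] at h3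
  rw [MonoidHom.comp_apply] at h4
  exact h3.symm.trans h4

end Pool.Agent.K7.H29.GA
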