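import Pool.Agent.K7.H29.GA.Ab

/-!
# Graphs of groups whose edge groups embed in the abelianizations of the vertex groups
-/

set_option autoImplicit false

namespace Pool.Agent.K7.H29.GA

open Pool.Agent.Y110.FJ Pool.Agent.R684.FP
open Pool.Agent.R941.FJ (C_equiv C_le C_cyc)
open Pool.Agent.K7.H87.FJ3 (hnn_closed)
open Monoid (Coprod CoprodI)

/-- `G` is the path group (in the sense of Serre) of the graph of groups with the vertex groups `A v` and, for
each edge `e` from `s e` to `r e`, the edge group `B e ≤ A (s e)` and its embedding `b ↦ t e b (t e)⁻¹` in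
`A (r e)`: the group `G` is generated by the vertex groups and the stable letters `t e`, and the
relations are those of the vertex groups and `t e b (t e)⁻¹ = b'`, `b' ∈ A (r e)` the image of `b`. The
fundamental groups of the graph of groups are subgroups of `G`. -/
structure IsPathGroup {G V E : Type} [Group G] (A : V → Subgroup G) (B : E → Subgroup G)
    (s r : E → V) (t : E → G) : Prop where
  src : ∀ e, ∀ b ∈ B e, b ∈ A (s e)
  tgt : ∀ e, ∀ b ∈ B e, t e * b * (t e)⁻¹ ∈ A (r e)
  gen : (⨆ v, A v) ⊔ Subgroup.closure (Set.range t) = ⊤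
  univ : ∀ (H : Type) [Group H] (f : ∀ v, A v →* H) (u : E → H),
    (∀ e b (hb : b ∈ B e), u e * f (s e) ⟨b, src e b hb⟩ * (u e)⁻¹ =
      f (r e) ⟨t e * b * (t e)⁻¹, tgt e b hb⟩) →
    ∃ F : G →* H, (∀ v (a : A v), F a = f v a) ∧ ∀ e, F (t e) = u e

section

variable {G V E : Type} [Group G] {A : V → Subgroup G} {B : E → Subgroup G}
  {s r : E → V} {t : E → G} (h : IsPathGroup A B s r t)

/-- the free product of the vertex groups -/
abbrev Mg (A : V → Subgroup G) : Type := CoprodI fun v => A v

/-- the inclusion of the edge group -/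
noncomputable def b1 (e : E) : B e →* Mg A where
  toFun b := CoprodI.of (M := fun v => A v) (i := s e) ⟨b, h.src e b b.2⟩
  map_one' := by rw [← map_one (CoprodI.of (M := fun v => A v) (i := s e))]; rfl
  map_mul' x y := by rw [← map_mul]; rfl

/-- the inclusion of the edge group at the other end -/
noncomputable def b2 (e : E) : B e →* Mg A where
  toFun b := CoprodI.of (M := fun v => A v) (i := r e) ⟨t e * b * (t e)⁻¹, h.tgt e b b.2⟩
  map_one' := by
    rw [← map_one (CoprodI.of (M := fun v => A v) (i := r e))]
    congr 1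
    apply Subtype.ext
    show t e * 1 * (t e)⁻¹ = 1
    group
  map_mul' x y := by
    rw [← map_mul]
    congr 1
    apply Subtype.ext
    show t e * (x * y) * (t e)⁻¹ = t e * x * (t e)⁻¹ * (t e * y * (t e)⁻¹)
    group

/-- the generators -/
abbrev Gn (A : V → Subgroup G) (E : Type) : Type := Coprod (Mg A) (FreeGroup E)

/-- the relations of the edges in `F` -/
def rl (F : Set E) : Set (Gn A E) :=
  {x | ∃ e ∈ F, ∃ b : B e, x = Coprod.inr (FreeGroup.of e) * Coprod.inl (b1 h e b) *
    (Coprod.inr (FreeGroup.of e))⁻¹ * (Coprod.inl (b2 h e b))⁻¹}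

/-- the group with the relations of the edges in `F` -/
abbrev PG (F : Set E) : Type := Gn A E ⧸ Subgroup.normalClosure (rl h F)

/-- the quotient map -/
def cl (F : Set E) : Gn A E →* PG h F := QuotientGroup.mk' _

theorem cl_rel {F : Set E} {e : E} (he : e ∈ F) (b : B e) :
    cl h F (Coprod.inr (FreeGroup.of e)) * cl h F (Coprod.inl (b1 h e b)) =
      cl h F (Coprod.inl (b2 h e b)) * cl h F (Coprod.inr (FreeGroup.of e)) := by
  have h1 : cl h F (Coprod.inr (FreeGroup.of e) * Coprod.inl (b1 h e b) *
    (Coprod.inr (FreeGroup.of e))⁻¹ * (Coprod.inl (b2 h e b))⁻¹) = 1 :=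
    (QuotientGroup.eq_one_iff _).2 (Subgroup.subset_normalClosure ⟨e, he, b, rfl⟩)
  rw [map_mul, map_inv, mul_inv_eq_one, map_mul, map_inv, mul_inv_eq_iff_eq_mul, map_mul] at h1
  exact h1

variable {H : Type} [Group H]

/-- the universal property -/
noncomputable def lf {F : Set E} (f : Mg A →* H) (u : E → H)
    (hf : ∀ e ∈ F, ∀ b : B e, u e * f (b1 h e b) = f (b2 h e b) * u e) : PG h F →* H :=
  QuotientGroup.lift _ (Coprod.lift f (FreeGroup.lift u)) (by
    have h1 : Subgroup.normalClosure (rl h F) ≤ (Coprod.lift f (FreeGroup.lift u)).ker := by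
      refine Subgroup.normalClosure_le_normal ?_
      rintro _ ⟨e, he, b, rfl⟩
      show Coprod.lift f (FreeGroup.lift u) _ = 1
      rw [map_mul, map_inv, mul_inv_eq_one, map_mul, map_inv, mul_inv_eq_iff_eq_mul, map_mul,
        Coprod.lift_apply_inr, Coprod.lift_apply_inl, Coprod.lift_apply_inl,
        FreeGroup.lift_apply_of]
      exact hf e he b
    exact fun x hx => h1 hx)

theorem lf_inl {F : Set E} (f : Mg A →* H) (u : E → H) (hf) (m : Mg A) :
    lf h (F := F) f u hf (cl h F (Coprod.inl m)) = f m := by
  show Coprod.lift f (FreeGroup.lift u) (Coprod.inl m) = _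
  rw [Coprod.lift_apply_inl]

theorem lf_inr {F : Set E} (f : Mg A →* H) (u : E → H) (hf) (e : E) :
    lf h (F := F) f u hf (cl h F (Coprod.inr (FreeGroup.of e))) = u e := by
  show Coprod.lift f (FreeGroup.lift u) (Coprod.inr (FreeGroup.of e)) = _
  rw [Coprod.lift_apply_inr, FreeGroup.lift_apply_of]

theorem PG_ext {F : Set E} {f g : PG h F →* H}
    (h1 : ∀ m, f (cl h F (Coprod.inl m)) = g (cl h F (Coprod.inl m)))
    (h2 : ∀ e, f (cl h F (Coprod.inr (FreeGroup.of e))) =
      g (cl h F (Coprod.inr (FreeGroup.of e)))) : f = g := by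
  apply QuotientGroup.monoidHom_ext
  apply Coprod.hom_ext
  · ext m
    exact h1 _
  · ext e
    exact h2 e

/-- the map which adds relations -/
def up {F F' : Set E} (hF : F ⊆ F') : PG h F →* PG h F' :=
  QuotientGroup.map _ _ (MonoidHom.id _) (by
    rw [Subgroup.comap_id]
    refine Subgroup.normalClosure_mono ?_
    rintro _ ⟨e, he, b, rfl⟩
    exact ⟨e, hF he, b, rfl⟩)

theorem up_cl {F F' : Set E} (hF : F ⊆ F') (x : Gn A E) : up h hF (cl h F x) = cl h F' x := rfl

end

section

variable {G V E : Type} [Group G] {A : V → Subgroup G} {B : E → Subgroup G}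
  {s r : E → V} {t : E → G} (h : IsPathGroup A B s r t)

/-- retraction to a vertex group -/
noncomputable def rt [DecidableEq V] (v : V) : Mg A →* A v :=
  CoprodI.lift fun w => if hw : w = v then hw ▸ MonoidHom.id _ else 1

theorem rt_of [DecidableEq V] (v : V) (a : A v) :
    rt v (CoprodI.of (M := fun v => A v) (i := v) a) = a := by
  rw [rt, CoprodI.lift_of, dif_pos rfl]
  rfl

/-- the characters -/
abbrev Ch (X : Type) [CommGroup X] : Type := CharacterModule (Additive X)

/-- an embedding in an injective abelian group -/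
def qq (X : Type) [CommGroup X] : X →* Multiplicative (Ch X → QZ) where
  toFun m := Multiplicative.ofAdd fun c => c (Additive.ofMul m)
  map_one' := by
    apply congrArg Multiplicative.ofAdd
    funext c
    exact map_zero c
  map_mul' x y := by
    apply congrArg Multiplicative.ofAdd
    funext c
    exact map_add c _ _

theorem qq_inj {X : Type} [CommGroup X] {m : X} (hm : qq X m = 1) : m = 1 := by
  have h2 : Additive.ofMul m = 0 := by
    apply CharacterModule.eq_zero_of_character_apply
    intro c
    exact congrFun hm c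
  exact h2

theorem ab_of {v : V} {a : A v}
    (ha : Abelianization.of (CoprodI.of (M := fun v => A v) (i := v) a) = 1) :
    (a : G) ∈ ⁅A v, A v⁆ := by
  classical
  have h1 : CoprodI.of (M := fun v => A v) (i := v) a ∈ commutator (Mg A) := by
    rwa [← MonoidHom.mem_ker, Abelianization.ker_of] at ha
  have h2 : rt v (CoprodI.of (M := fun v => A v) (i := v) a) ∈ commutator (A v) := by
    have h3 : (commutator (Mg A)).map (rt v) ≤ commutator (A v) := by
      rw [commutator_def, Subgroup.map_commutator, commutator_def]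
      exact Subgroup.commutator_mono le_top le_top
    exact h3 ⟨_, h1, rfl⟩
  rw [rt_of] at h2
  rw [← Subgroup.map_subtype_commutator]
  exact ⟨a, h2, rfl⟩

end

end Pool.Agent.K7.H29.GA
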