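import Pool.Agent.K7.H29.GA.Gr

/-!
# Graphs of groups whose edge groups embed in the abelianizations: the theorem
-/

set_option autoImplicit false

namespace Pool.Agent.K7.H29.GA

open Pool.Agent.Y110.FJ Pool.Agent.R684.FP
open Pool.Agent.R941.FJ (C_equiv C_le C_cyc)
open Pool.Agent.K7.H87.FJ3 (hnn_closed)
open Monoid (Coprod CoprodI)

variable {G V E : Type} [Group G] {A : V → Subgroup G} {B : E → Subgroup G}
  {s r : E → V} {t : E → G} (h : IsPathGroup A B s r t)

section target

variable {X : Type} [CommGroup X] (χ : ∀ v, A v →* X)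

/-- the map of the free product to an injective abelian group -/
noncomputable def qx : Mg A →* Multiplicative (Ch X → QZ) := (qq X).comp (CoprodI.lift χ)

theorem qx_b1 {e : E} {b : B e} : qx χ (b1 h e b) = 1 ↔ χ (s e) ⟨b, h.src e b b.2⟩ = 1 := by
  have h1 : qx χ (b1 h e b) = qq X (χ (s e) ⟨b, h.src e b b.2⟩) :=
    congrArg (qq X) (CoprodI.lift_of χ _)
  rw [h1]
  exact ⟨qq_inj, fun h => by rw [h, map_one]⟩

theorem qx_b2 {e : E} {b : B e} : qx χ (b2 h e b) = 1 ↔
    χ (r e) ⟨t e * b * (t e)⁻¹, h.tgt e b b.2⟩ = 1 := by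
  have h1 : qx χ (b2 h e b) = qq X (χ (r e) ⟨t e * b * (t e)⁻¹, h.tgt e b b.2⟩) :=
    congrArg (qq X) (CoprodI.lift_of χ _)
  rw [h1]
  exact ⟨qq_inj, fun h => by rw [h, map_one]⟩

theorem u1_mul (e : E) (b c : B e) : Multiplicative.toAdd (qx χ (b1 h e (b * c))) =
    Multiplicative.toAdd (qx χ (b1 h e b)) + Multiplicative.toAdd (qx χ (b1 h e c)) :=
  congrArg Multiplicative.toAdd ((congrArg (qx χ) (map_mul (b1 h e) b c)).trans (map_mul (qx χ) _ _))

theorem u2_mul (e : E) (b c : B e) : Multiplicative.toAdd (qx χ (b2 h e (b * c))) =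
    Multiplicative.toAdd (qx χ (b2 h e b)) + Multiplicative.toAdd (qx χ (b2 h e c)) :=
  congrArg Multiplicative.toAdd ((congrArg (qx χ) (map_mul (b2 h e) b c)).trans (map_mul (qx χ) _ _))

theorem u1_one (e : E) : Multiplicative.toAdd (qx χ (b1 h e 1)) = 0 :=
  congrArg Multiplicative.toAdd ((congrArg (qx χ) (map_one (b1 h e))).trans (map_one (qx χ)))

theorem u2_one (e : E) : Multiplicative.toAdd (qx χ (b2 h e 1)) = 0 :=
  congrArg Multiplicative.toAdd ((congrArg (qx χ) (map_one (b2 h e))).trans (map_one (qx χ)))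

theorem u1_inv (e : E) (b : B e) : Multiplicative.toAdd (qx χ (b1 h e b⁻¹)) =
    -Multiplicative.toAdd (qx χ (b1 h e b)) := by
  rw [eq_neg_iff_add_eq_zero, ← u1_mul, inv_mul_cancel, u1_one]

theorem u2_inv (e : E) (b : B e) : Multiplicative.toAdd (qx χ (b2 h e b⁻¹)) =
    -Multiplicative.toAdd (qx χ (b2 h e b)) := by
  rw [eq_neg_iff_add_eq_zero, ← u2_mul, inv_mul_cancel, u2_one]

/-- the automorphisms which extend the identifications of the edge groups -/
theorem exists_al (hχ : ∀ e b (hb : b ∈ B e), χ (s e) ⟨b, h.src e b hb⟩ = 1 ↔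
      χ (r e) ⟨t e * b * (t e)⁻¹, h.tgt e b hb⟩ = 1) (e : E) :
    ∃ α : MulAut (Multiplicative ((Ch X → QZ) × (Ch X → QZ))), ∀ b : B e,
      α (Multiplicative.ofAdd (Multiplicative.toAdd (qx χ (b1 h e b)), 0)) =
        Multiplicative.ofAdd (Multiplicative.toAdd (qx χ (b2 h e b)), 0) := by
  let Γ : AddSubgroup ((Ch X → QZ) × (Ch X → QZ)) :=
    { carrier := {p | ∃ b : B e, p = (Multiplicative.toAdd (qx χ (b1 h e b)),
        Multiplicative.toAdd (qx χ (b2 h e b)))}
      zero_mem' := ⟨1, by rw [u1_one, u2_one]; rfl⟩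
      add_mem' := by
        rintro _ _ ⟨b, rfl⟩ ⟨c, rfl⟩
        exact ⟨b * c, by rw [u1_mul, u2_mul]; rfl⟩
      neg_mem' := by
        rintro _ ⟨b, rfl⟩
        exact ⟨b⁻¹, by rw [u1_inv, u2_inv]; rfl⟩ }
  obtain ⟨α, hα⟩ := exists_aut Γ (by
    rintro _ ⟨b, rfl⟩ hb
    have h1 : qx χ (b1 h e b) = 1 := hb
    exact (qx_b2 h χ).2 ((hχ e b b.2).1 ((qx_b1 h χ).1 h1))) (by
    rintro _ ⟨b, rfl⟩ hb
    have h1 : qx χ (b2 h e b) = 1 := hb
    exact (qx_b1 h χ).2 ((hχ e b b.2).2 ((qx_b2 h χ).1 h1)))
  exact ⟨α, fun b => hα _ ⟨b, rfl⟩⟩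

end target

section step

variable {Q : Type} [Group Q] (q : Mg A →* Q) (w : E → Q)
  (hq : ∀ e (b : B e), w e * q (b1 h e b) = q (b2 h e b) * w e)
  (hi1 : ∀ e (b : B e), q (b1 h e b) = 1 → b = 1)
  (hi2 : ∀ e (b : B e), q (b2 h e b) = 1 → b = 1)

/-- the homomorphism to the target -/
noncomputable def ro (F : Set E) : PG h F →* Q := lf h q w fun e _ b => hq e b

theorem ro_inl (F : Set E) (m : Mg A) : ro h q w hq F (cl h F (Coprod.inl m)) = q m :=
  lf_inl h q w _ m

theorem ro_inr (F : Set E) (e : E) : ro h q w hq F (cl h F (Coprod.inr (FreeGroup.of e))) = w e :=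
  lf_inr h q w _ e

/-- the inclusion of the edge group in the quotient -/
noncomputable def i1 (F : Set E) (e : E) : B e →* PG h F :=
  (cl h F).comp (Coprod.inl.comp (b1 h e))

/-- the inclusion of the edge group in the quotient -/
noncomputable def i2 (F : Set E) (e : E) : B e →* PG h F :=
  (cl h F).comp (Coprod.inl.comp (b2 h e))

include hi1 hq in
theorem i1_inj (F : Set E) (e : E) : Function.Injective (i1 h F e) := by
  rw [injective_iff_map_eq_one]
  intro b hb
  apply hi1 e b
  rw [← ro_inl h q w hq F]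
  show ro h q w hq F (i1 h F e b) = 1
  rw [hb, map_one]

include hi2 hq in
theorem i2_inj (F : Set E) (e : E) : Function.Injective (i2 h F e) := by
  rw [injective_iff_map_eq_one]
  intro b hb
  apply hi2 e b
  rw [← ro_inl h q w hq F]
  show ro h q w hq F (i2 h F e b) = 1
  rw [hb, map_one]

variable {C : ∀ (G : Type) [Group G], Prop}

include hi1 hi2 hq in
/-- one more edge -/
theorem step (hC : ClosedE C) (hFb : FbC C) (hQ : C Q) (F : Set E) (e : E) (hF : C (PG h F)) :
    C (PG h (insert e F)) := by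
  classical
  have h1 := i1_inj h q w hq hi1 F e
  have h2 := i2_inj h q w hq hi2 F e
  let φ : (i1 h F e).range ≃* (i2 h F e).range :=
    (MonoidHom.ofInjective h1).symm.trans (MonoidHom.ofInjective h2)
  have hφ : ∀ b : B e, φ ⟨i1 h F e b, b, rfl⟩ = ⟨i2 h F e b, b, rfl⟩ := by
    intro b
    have h3 : (MonoidHom.ofInjective h1).symm ⟨i1 h F e b, b, rfl⟩ = b := by
      rw [MulEquiv.symm_apply_eq]
      rfl
    show (MonoidHom.ofInjective h2) ((MonoidHom.ofInjective h1).symm ⟨i1 h F e b, b, rfl⟩) = _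
    rw [h3]
    rfl
  -- the homomorphism to the target
  let f : HNNExtension (PG h F) (i1 h F e).range (i2 h F e).range φ →* Q :=
    HNNExtension.lift (ro h q w hq F) (w e) (by
      rintro ⟨_, b, rfl⟩
      rw [hφ b]
      show w e * ro h q w hq F (cl h F (Coprod.inl (b1 h e b))) =
        ro h q w hq F (cl h F (Coprod.inl (b2 h e b))) * w e
      rw [ro_inl, ro_inl]
      exact hq e b)
  have hH : C (HNNExtension (PG h F) (i1 h F e).range (i2 h F e).range φ) := by
    refine hnn_closed hC hFb φ f ?_ hF hQ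
    rintro _ ⟨b, rfl⟩ hb
    have h3 : ro h q w hq F (cl h F (Coprod.inl (b1 h e b))) = 1 := by
      rw [← hb]
      exact (HNNExtension.lift_of _ _ _ _).symm
    rw [ro_inl] at h3
    rw [hi1 e b h3, map_one]
  -- the embedding
  let u : E → HNNExtension (PG h F) (i1 h F e).range (i2 h F e).range φ := fun e' =>
    if e' = e then HNNExtension.t
    else HNNExtension.of (cl h F (Coprod.inr (FreeGroup.of e')))
  let g : PG h (insert e F) →* HNNExtension (PG h F) (i1 h F e).range (i2 h F e).range φ :=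
    lf h (HNNExtension.of.comp ((cl h F).comp Coprod.inl)) u (by
      intro e' he' b
      by_cases hee : e' = e
      · subst hee
        show (if e' = e' then _ else _) * _ = _ * (if e' = e' then _ else _)
        rw [if_pos rfl]
        have h3 := HNNExtension.t_mul_of (φ := φ) ⟨i1 h F e' b, b, rfl⟩
        rw [hφ b] at h3
        exact h3
      · show (if e' = e then _ else _) * _ = _ * (if e' = e then _ else _)
        rw [if_neg hee]
        have h3 : e' ∈ F := he'.resolve_left hee
        show HNNExtension.of _ * HNNExtension.of _ = HNNExtension.of _ * HNNExtension.of _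
        rw [← map_mul, ← map_mul]
        exact congrArg _ (cl_rel h h3 b))
  let k : HNNExtension (PG h F) (i1 h F e).range (i2 h F e).range φ →* PG h (insert e F) :=
    HNNExtension.lift (up h (Set.subset_insert e F))
      (cl h (insert e F) (Coprod.inr (FreeGroup.of e))) (by
      rintro ⟨_, b, rfl⟩
      rw [hφ b]
      exact cl_rel h (Set.mem_insert e F) b)
  have hk : k.comp g = MonoidHom.id _ := by
    apply PG_ext h
    · intro m
      show k (g (cl h (insert e F) (Coprod.inl m))) = cl h (insert e F) (Coprod.inl m)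
      have h3 : g (cl h (insert e F) (Coprod.inl m)) =
        HNNExtension.of (cl h F (Coprod.inl m)) := lf_inl h _ _ _ m
      rw [h3]
      exact HNNExtension.lift_of _ _ _ _
    · intro e'
      show k (g (cl h (insert e F) (Coprod.inr (FreeGroup.of e')))) =
        cl h (insert e F) (Coprod.inr (FreeGroup.of e'))
      have h3 : g (cl h (insert e F) (Coprod.inr (FreeGroup.of e'))) = u e' := lf_inr h _ _ _ e'
      rw [h3]
      by_cases hee : e' = e
      · subst hee
        show k (if e' = e' then _ else _) = _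
        rw [if_pos rfl]
        exact HNNExtension.lift_t _ _ _
      · show k (if e' = e then _ else _) = _
        rw [if_neg hee]
        exact HNNExtension.lift_of _ _ _ _
  refine hC.base.of_injective _ _ g ?_ hH
  intro x y hxy
  have h3 := DFunLike.congr_fun hk x
  have h4 := DFunLike.congr_fun hk y
  rw [MonoidHom.comp_apply, hxy] at h3
  rw [MonoidHom.comp_apply] at h4
  exact h3.symm.trans h4

theorem base (hC : ClosedE C) (hFb : FbC C) (hA : ∀ v, C (A v)) : C (PG h ∅) := by
  have hF : C (FreeGroup E) := hC.base.of_injective _ _ (SemidirectProduct.inl)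
    SemidirectProduct.inl_injective (hFb E 1)
  have h1 : C (Gn A E) := hC.base.coprod _ _ (C_coprodI hC hFb _ hA) hF
  refine hC.base.of_injective _ _ (lf h (F := ∅) (H := Gn A E) Coprod.inl
    (fun e => Coprod.inr (FreeGroup.of e)) (fun e he => he.elim)) ?_ h1
  have h2 : (cl h ∅).comp (lf h (F := ∅) (H := Gn A E) Coprod.inl
    (fun e => Coprod.inr (FreeGroup.of e)) (fun e he => he.elim)) = MonoidHom.id _ := by
    apply PG_ext h
    · intro m
      rw [MonoidHom.comp_apply, lf_inl]
      rfl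
    · intro e
      rw [MonoidHom.comp_apply, lf_inr]
      rfl
  intro x y hxy
  have h3 := DFunLike.congr_fun h2 x
  have h4 := DFunLike.congr_fun h2 y
  rw [MonoidHom.comp_apply, hxy] at h3
  rw [MonoidHom.comp_apply] at h4
  exact h3.symm.trans h4

include hi1 hi2 hq in
theorem fin_edges (hC : ClosedE C) (hFb : FbC C) (hA : ∀ v, C (A v)) (hQ : C Q) (F : Finset E) :
    C (PG h (F : Set E)) := by
  classical
  induction F using Finset.induction_on with
  | empty =>
    rw [Finset.coe_empty]
    exact base h hC hFb hA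
  | insert e F he ih =>
    rw [Finset.coe_insert]
    exact step h q w hq hi1 hi2 hC hFb hQ _ e ih

/-- a relation uses finitely many edges -/
theorem mem_fin {x : Gn A E} (hx : x ∈ Subgroup.normalClosure (rl h Set.univ)) :
    ∃ F : Finset E, x ∈ Subgroup.normalClosure (rl h (F : Set E)) := by
  classical
  unfold Subgroup.normalClosure at hx
  induction hx using Subgroup.closure_induction with
  | mem x hx =>
    rw [Group.mem_conjugatesOfSet_iff] at hx
    obtain ⟨y, ⟨e, _, b, hy⟩, hc⟩ := hx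
    refine ⟨{e}, ?_⟩
    have h1 : y ∈ rl h (({e} : Finset E) : Set E) := ⟨e, by simp, b, hy⟩
    exact Subgroup.subset_closure (Group.mem_conjugatesOfSet_iff.2 ⟨y, h1, hc⟩)
  | one => exact ⟨∅, Subgroup.one_mem _⟩
  | mul x y _ _ hx hy =>
    obtain ⟨F, hF⟩ := hx
    obtain ⟨F', hF'⟩ := hy
    have hm : ∀ {F F' : Finset E}, F ⊆ F' → Subgroup.normalClosure (rl h (F : Set E)) ≤
        Subgroup.normalClosure (rl h (F' : Set E)) := by
      intro F F' hFF
      refine Subgroup.normalClosure_mono ?_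
      rintro _ ⟨e, he, b, rfl⟩
      exact ⟨e, by exact_mod_cast hFF (by exact_mod_cast he), b, rfl⟩
    exact ⟨F ∪ F', Subgroup.mul_mem _ (hm Finset.subset_union_left hF)
      (hm Finset.subset_union_right hF')⟩
  | inv x _ hx =>
    obtain ⟨F, hF⟩ := hx
    exact ⟨F, Subgroup.inv_mem _ hF⟩

/-- the canonical map to `G` -/
noncomputable def toG (F : Set E) : PG h F →* G :=
  lf h (CoprodI.lift fun v => (A v).subtype) t (by
    intro e _ b
    show t e * (CoprodI.lift fun v => (A v).subtype) (CoprodI.of _) =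
      (CoprodI.lift fun v => (A v).subtype) (CoprodI.of _) * t e
    rw [CoprodI.lift_of, CoprodI.lift_of]
    show t e * b = t e * b * (t e)⁻¹ * t e
    rw [inv_mul_cancel_right])

theorem toG_up {F F' : Set E} (hF : F ⊆ F') (x : PG h F) : toG h F' (up h hF x) = toG h F x := by
  have h1 : (toG h F').comp (up h hF) = toG h F := by
    apply PG_ext h
    · intro m
      rw [MonoidHom.comp_apply, up_cl]
      exact (lf_inl h _ _ _ m).trans (lf_inl h _ _ _ m).symm
    · intro e
      rw [MonoidHom.comp_apply, up_cl]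
      exact (lf_inr h _ _ _ e).trans (lf_inr h _ _ _ e).symm
  exact DFunLike.congr_fun h1 x

theorem toG_surj (F : Set E) : Function.Surjective (toG h F) := by
  rw [← MonoidHom.range_eq_top, eq_top_iff, ← h.gen]
  refine sup_le (iSup_le fun v a ha => ?_) ((Subgroup.closure_le _).2 ?_)
  · refine ⟨cl h F (Coprod.inl (CoprodI.of (M := fun v => A v) (i := v) ⟨a, ha⟩)), ?_⟩
    refine (lf_inl h _ _ _ _).trans ?_
    rw [CoprodI.lift_of]
    rfl
  · rintro _ ⟨e, rfl⟩
    exact ⟨cl h F (Coprod.inr (FreeGroup.of e)), lf_inr h _ _ _ e⟩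

theorem toG_univ_inj {x : PG h Set.univ} (hx : toG h Set.univ x = 1) : x = 1 := by
  obtain ⟨Φ, hΦ1, hΦ2⟩ := h.univ (PG h Set.univ)
    (fun v => (cl h Set.univ).comp (Coprod.inl.comp (CoprodI.of (M := fun v => A v) (i := v))))
    (fun e => cl h Set.univ (Coprod.inr (FreeGroup.of e))) (by
      intro e b hb
      rw [mul_inv_eq_iff_eq_mul]
      exact cl_rel h (Set.mem_univ e) ⟨b, hb⟩)
  have h1 : Φ.comp (toG h Set.univ) = MonoidHom.id _ := by
    apply PG_ext h
    · intro m
      rw [MonoidHom.comp_apply]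
      have h2 : toG h Set.univ (cl h Set.univ (Coprod.inl m)) =
        (CoprodI.lift fun v => (A v).subtype) m := lf_inl h _ _ _ m
      rw [h2]
      have h3 : Φ.comp (CoprodI.lift fun v => (A v).subtype) =
          (cl h Set.univ).comp Coprod.inl := by
        apply CoprodI.ext_hom
        intro v
        ext a
        simp only [MonoidHom.comp_apply, CoprodI.lift_of]
        exact hΦ1 v a
      exact DFunLike.congr_fun h3 m
    · intro e
      rw [MonoidHom.comp_apply]
      have h2 : toG h Set.univ (cl h Set.univ (Coprod.inr (FreeGroup.of e))) = t e :=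
        lf_inr h _ _ _ e
      rw [h2]
      exact hΦ2 e
  have h2 := DFunLike.congr_fun h1 x
  rw [MonoidHom.comp_apply, hx, map_one] at h2
  exact h2.symm

theorem up_self {F : Set E} (hF : F ⊆ F) (x : PG h F) : up h hF x = x := by
  have h1 : up h hF = MonoidHom.id _ := by
    apply PG_ext h
    · intro m
      rw [up_cl, MonoidHom.id_apply]
    · intro e
      rw [up_cl, MonoidHom.id_apply]
  rw [h1, MonoidHom.id_apply]

theorem up_up {F F' F'' : Set E} (hF : F ⊆ F') (hF' : F' ⊆ F'') (hF'' : F ⊆ F'') (x : PG h F) :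
    up h hF' (up h hF x) = up h hF'' x := by
  have h1 : (up h hF').comp (up h hF) = up h hF'' := by
    apply PG_ext h
    · intro m
      rw [MonoidHom.comp_apply, up_cl, up_cl, up_cl]
    · intro e
      rw [MonoidHom.comp_apply, up_cl, up_cl, up_cl]
  rw [← h1, MonoidHom.comp_apply]

theorem ker_fin (F : Finset E) (x : PG h (F : Set E)) (hx : toG h (F : Set E) x = 1) :
    ∃ F' : Finset E, ∃ hF : F ⊆ F', up h (F := (F : Set E)) (F' := (F' : Set E))
      (Finset.coe_subset.2 hF) x = 1 := by
  classical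
  obtain ⟨x, rfl⟩ := QuotientGroup.mk'_surjective _ x
  have h1 : toG h Set.univ (up h (Set.subset_univ _) (cl h (F : Set E) x)) = 1 := by
    rw [toG_up]
    exact hx
  have h2 := toG_univ_inj h h1
  rw [up_cl] at h2
  obtain ⟨F', hF'⟩ := mem_fin h ((QuotientGroup.eq_one_iff _).1 h2)
  refine ⟨F ∪ F', Finset.subset_union_left, ?_⟩
  have h3 : cl h ((F ∪ F' : Finset E) : Set E) x = 1 := by
    refine (QuotientGroup.eq_one_iff _).2 (Subgroup.normalClosure_mono ?_ hF')
    rintro _ ⟨e, he, b, rfl⟩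
    exact ⟨e, by
      rw [Finset.coe_union]
      exact Or.inr he, b, rfl⟩
  rw [← h3]
  exact up_cl h _ x

include h hi1 hi2 hq in
theorem of_target (hC : ClosedE C) (hFb : FbC C) (hA : ∀ v, C (A v)) (hQ : C Q) : C G := by
  classical
  have hfin : ∀ F : Finset E, C (PG h (F : Set E)) :=
    fun F => fin_edges h q w hq hi1 hi2 hC hFb hA hQ F
  have hdir : ∀ i j : Finset E, ∃ k, i ≤ k ∧ j ≤ k :=
    fun i j => ⟨i ∪ j, Finset.subset_union_left, Finset.subset_union_right⟩
  have hsurj : ∀ y : G, ∃ F : Finset E, ∃ x : PG h (F : Set E), toG h (F : Set E) x = y := by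
    intro y
    obtain ⟨x, hx⟩ := toG_surj h ((∅ : Finset E) : Set E) y
    exact ⟨∅, x, hx⟩
  exact hC.base.colim (Finset E) hdir (fun F => PG h (F : Set E))
    (fun F F' hF => up h (Finset.coe_subset.2 hF)) G (fun F => toG h (F : Set E))
    (fun F _ x => up_self h _ x) (fun F F' F'' _ _ x => up_up h _ _ _ x)
    (fun F F' hF x => toG_up h _ x) hsurj (fun F x hx => ker_fin h F x hx) hfin

end step

/-- the homomorphism from the free product of the vertex groups -/
noncomputable def toM (A : V → Subgroup G) : Mg A →* G := CoprodI.lift fun v => (A v).subtype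

theorem toM_b1 (e : E) (b : B e) : toM A (b1 h e b) = b := CoprodI.lift_of _ _

theorem toM_b2 (e : E) (b : B e) : toM A (b2 h e b) = t e * b * (t e)⁻¹ := CoprodI.lift_of _ _

include h in
/-- **Graphs of groups with characters of the vertex groups** -/
theorem char_edges {C : ∀ (G : Type) [Group G], Prop} (hC : ClosedE C) (hFb : FbC C)
    (hS : ∀ (S : Type) [Group S], Group.IsSolvable S → C S) (hA : ∀ v, C (A v))
    {Q : Type} [Group Q] (hQ : C Q) (ρ : G →* Q) {X : Type} [CommGroup X] (χ : ∀ v, A v →* X)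
    (hχ : ∀ e b (hb : b ∈ B e), χ (s e) ⟨b, h.src e b hb⟩ = 1 ↔
      χ (r e) ⟨t e * b * (t e)⁻¹, h.tgt e b hb⟩ = 1)
    (hχρ : ∀ e b (hb : b ∈ B e), χ (s e) ⟨b, h.src e b hb⟩ = 1 → ρ b = 1 → b = 1) : C G := by
  choose al hal using exists_al h χ hχ
  let φ : FreeGroup E →* MulAut (Multiplicative ((Ch X → QZ) × (Ch X → QZ))) :=
    FreeGroup.lift al
  let fa : Multiplicative (Ch X → QZ) →* Multiplicative ((Ch X → QZ) × (Ch X → QZ)) :=
    AddMonoidHom.toMultiplicative (AddMonoidHom.inl _ _)
  let q : Mg A →* (Multiplicative ((Ch X → QZ) × (Ch X → QZ)) ⋊[φ] FreeGroup E) × Q :=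
    MonoidHom.prod (SemidirectProduct.inl.comp (fa.comp (qx χ))) (ρ.comp (toM A))
  let w : E → (Multiplicative ((Ch X → QZ) × (Ch X → QZ)) ⋊[φ] FreeGroup E) × Q := fun e =>
    (SemidirectProduct.inr (FreeGroup.of e), ρ (t e))
  have hq1 : ∀ m, q m = 1 → qx χ m = 1 ∧ ρ (toM A m) = 1 := by
    intro m hm
    refine ⟨?_, congrArg Prod.snd hm⟩
    have h1 : fa (qx χ m) = 1 :=
      SemidirectProduct.inl_injective ((congrArg Prod.fst hm).trans (map_one _).symm)
    exact congrArg (fun p : Multiplicative ((Ch X → QZ) × (Ch X → QZ)) =>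
      Multiplicative.ofAdd (Multiplicative.toAdd p).1) h1
  refine of_target h q w ?_ ?_ ?_ hC hFb hA (hC.base.prod _ _ (ab_by_free hC hFb hS φ) hQ)
  · intro e b
    apply Prod.ext
    · show SemidirectProduct.inr (FreeGroup.of e) * SemidirectProduct.inl (fa (qx χ (b1 h e b))) =
        SemidirectProduct.inl (fa (qx χ (b2 h e b))) * SemidirectProduct.inr (FreeGroup.of e)
      rw [← mul_inv_eq_iff_eq_mul, ← map_inv, ← SemidirectProduct.inl_aut]
      congr 1
      show FreeGroup.lift al (FreeGroup.of e) _ = _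
      rw [FreeGroup.lift_apply_of]
      exact hal e b
    · show ρ (t e) * ρ (toM A (b1 h e b)) = ρ (toM A (b2 h e b)) * ρ (t e)
      rw [toM_b1, toM_b2, ← map_mul, ← map_mul, inv_mul_cancel_right]
  · intro e b hb
    obtain ⟨h1, h2⟩ := hq1 _ hb
    rw [toM_b1] at h2
    exact Subtype.ext (hχρ e b b.2 ((qx_b1 h χ).1 h1) h2)
  · intro e b hb
    obtain ⟨h1, h2⟩ := hq1 _ hb
    rw [toM_b2] at h2
    have h3 : ρ b = 1 := by
      rw [map_mul, map_mul, map_inv, mul_inv_eq_one] at h2
      exact mul_left_cancel (h2.trans (mul_one _).symm)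
    exact Subtype.ext (hχρ e b b.2 ((hχ e b b.2).2 ((qx_b2 h χ).1 h1)) h3)

include h in
/-- **Graphs of groups whose edge groups embed in the abelianizations of the vertex groups** -/
theorem ab_edges {C : ∀ (G : Type) [Group G], Prop} (hC : ClosedE C) (hFb : FbC C)
    (hS : ∀ (S : Type) [Group S], Group.IsSolvable S → C S) (hA : ∀ v, C (A v))
    (hs : ∀ e, ∀ b ∈ B e, b ∈ ⁅A (s e), A (s e)⁆ → b = 1)
    (hr : ∀ e, ∀ b ∈ B e, t e * b * (t e)⁻¹ ∈ ⁅A (r e), A (r e)⁆ → b = 1) : C G := by
  have h1 : C (Multiplicative ℤ) := hC.base.int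
  refine char_edges h hC hFb hS hA h1 1 (X := Abelianization (Mg A))
    (fun v => Abelianization.of.comp (CoprodI.of (M := fun v => A v) (i := v))) ?_ ?_
  · intro e b hb
    have h2 : ∀ {v : V} {a : A v}, (a : G) = 1 →
        Abelianization.of (CoprodI.of (M := fun v => A v) (i := v) a) = 1 := by
      intro v a ha
      have : a = 1 := Subtype.ext ha
      rw [this, map_one, map_one]
    constructor
    · intro hb1
      apply h2
      have h3 : b = 1 := hs e b hb (ab_of hb1)
      show t e * b * (t e)⁻¹ = 1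
      rw [h3]
      group
    · intro hb1
      apply h2
      exact hr e b hb (ab_of hb1)
  · intro e b hb hb1 _
    exact hs e b hb (ab_of hb1)

end Pool.Agent.K7.H29.GA
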